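import Pool.Agent.Q44.JQ.StmG

/-! Project JQ (helper44), job JQ-ADJ0 (helper153): operators generate the product of the
endomorphism algebras of pairwise non isomorphic modules. -/

set_option autoImplicit false

namespace Pool.Agent.Q153.JQ

open Finset Module
open Q44.JQ

/-- a functional with value one -/
theorem exists_fun {V : Type} [AddCommGroup V] [Module (ZMod 2) V] (w : V) (hw : w ≠ 0) :
    ∃ f : V →ₗ[ZMod 2] ZMod 2, f w = 1 := by
  have h1 : ¬ ∀ f : Module.Dual (ZMod 2) V, f w = 0 := fun h =>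
    hw ((Module.forall_dual_apply_eq_zero_iff (ZMod 2) w).mp h)
  push Not at h1
  obtain ⟨f, hf⟩ := h1
  refine ⟨f, ?_⟩
  have h2 : ∀ x : ZMod 2, x ≠ 0 → x = 1 := by decide
  exact h2 _ hf

/-- the identity as a sum of operators which factor through `h` -/
theorem one_sum {V : Type} [AddCommGroup V] [Module (ZMod 2) V] [Finite V] (f : V →ₗ[ZMod 2] ZMod 2)
    (h : Module.End (ZMod 2) V) (u : V) (hf : f (h u) = 1) :
    ∑ i, (f.smulRight (Module.finBasis (ZMod 2) V i) : Module.End (ZMod 2) V) * h *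
      (((Module.finBasis (ZMod 2) V).coord i).smulRight u : Module.End (ZMod 2) V) = 1 := by
  refine LinearMap.ext fun z => ?_
  rw [LinearMap.sum_apply]
  have h1 : ∀ i, ((f.smulRight (Module.finBasis (ZMod 2) V i) : Module.End (ZMod 2) V) * h *
      (((Module.finBasis (ZMod 2) V).coord i).smulRight u : Module.End (ZMod 2) V)) z =
      (Module.finBasis (ZMod 2) V).repr z i • Module.finBasis (ZMod 2) V i := by
    intro i
    rw [Module.End.mul_apply, Module.End.mul_apply, LinearMap.smulRight_apply,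
      LinearMap.smulRight_apply, map_smul, map_smul, hf, smul_eq_mul, mul_one, Basis.coord_apply]
  rw [Finset.sum_congr rfl fun i _ => h1 i, Basis.sum_repr, Module.End.one_apply]

section

variable {s κ : Type} [Fintype s] [Fintype κ] {V : κ → Type} [∀ k, AddCommGroup (V k)]
  [∀ k, Module (ZMod 2) (V k)] [∀ k, Finite (V k)] [∀ k, Nontrivial (V k)]
  {T : ∀ k, (s → ZMod 2) → Module.End (ZMod 2) (V k)}

/-- the algebra generated in the product -/
abbrev AA (T : ∀ k, (s → ZMod 2) → Module.End (ZMod 2) (V k)) :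
    Subalgebra (ZMod 2) (∀ k, Module.End (ZMod 2) (V k)) :=
  Algebra.adjoin (ZMod 2) (Set.range fun φ : s → ZMod 2 =>
    (fun k => T k φ : ∀ k, Module.End (ZMod 2) (V k)))

omit [Fintype s] [Fintype κ] [∀ k, Finite (V k)] [∀ k, Nontrivial (V k)] in
theorem sur (hT : ∀ k, Algebra.adjoin (ZMod 2) (Set.range (T k)) = ⊤) (k : κ)
    (g : Module.End (ZMod 2) (V k)) : ∃ x ∈ AA T, x k = g := by
  have h1 : (AA T).map (Pi.evalAlgHom (ZMod 2) (fun k => Module.End (ZMod 2) (V k)) k) = ⊤ := by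
    rw [AlgHom.map_adjoin, ← Set.range_comp]
    exact hT k
  have h2 : g ∈ (AA T).map (Pi.evalAlgHom (ZMod 2) (fun k => Module.End (ZMod 2) (V k)) k) := by
    rw [h1]
    exact Algebra.mem_top
  obtain ⟨x, hx, rfl⟩ := h2
  exact ⟨x, hx, rfl⟩

omit [Fintype s] [Fintype κ] in
/-- separation -/
theorem sep (hT : ∀ k, Algebra.adjoin (ZMod 2) (Set.range (T k)) = ⊤)
    (hiso : ∀ k l, k ≠ l → ¬ ∃ f : V k ≃ₗ[ZMod 2] V l, ∀ φ x, f (T k φ x) = T l φ (f x))
    (k l : κ) (hkl : k ≠ l) : ∃ x ∈ AA T, x l = 0 ∧ x k ≠ 0 := by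
  by_contra hcon
  push Not at hcon
  choose X hXA hX using sur hT l
  have hθ : ∀ x ∈ AA T, x k = X (x l) k := by
    intro x hx
    have h1 := hcon (x - X (x l)) (sub_mem hx (hXA _)) (by rw [Pi.sub_apply, hX, sub_self])
    rw [Pi.sub_apply] at h1
    exact sub_eq_zero.mp h1
  have hadd : ∀ g h, X (g + h) k = X g k + X h k := by
    intro g h
    have h1 := hθ (X g + X h) (add_mem (hXA _) (hXA _))
    rw [Pi.add_apply, Pi.add_apply, hX, hX] at h1
    exact h1.symm
  have hmul : ∀ g h, X (g * h) k = X g k * X h k := by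
    intro g h
    have h1 := hθ (X g * X h) (mul_mem (hXA _) (hXA _))
    rw [Pi.mul_apply, Pi.mul_apply, hX, hX] at h1
    exact h1.symm
  have hone : X 1 k = 1 := by
    have h1 := hθ 1 (one_mem _)
    rw [Pi.one_apply, Pi.one_apply] at h1
    exact h1.symm
  obtain ⟨θ, hθ'⟩ : ∃ θ : Module.End (ZMod 2) (V l) →+* Module.End (ZMod 2) (V k),
      ∀ g, θ g = X g k :=
    by exact ⟨RingHom.mk' ⟨⟨fun g => X g k, hone⟩, hmul⟩ hadd, fun g => rfl⟩
  have hθx : ∀ x ∈ AA T, x k = θ (x l) := fun x hx => by rw [hθ']; exact hθ x hx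
  obtain ⟨w, hw⟩ := exists_ne (0 : V l)
  obtain ⟨f, hf⟩ := exists_fun w hw
  obtain ⟨v₀, hv₀⟩ := exists_ne (0 : V k)
  obtain ⟨v, hv, hvw⟩ : ∃ v : V k, v ≠ 0 ∧ θ (f.smulRight w) v = v := by
    have h1 := one_sum f 1 w (by rw [Module.End.one_apply]; exact hf)
    have h2 : ∃ i, θ (((Module.finBasis (ZMod 2) (V l)).coord i).smulRight w) v₀ ≠ 0 := by
      by_contra h3
      push Not at h3
      apply hv₀
      have h4 := congrArg (fun g => θ g v₀) h1
      simp only [map_sum, map_mul, map_one, mul_one, LinearMap.sum_apply, Module.End.mul_apply,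
        h3, map_zero, Finset.sum_const_zero, Module.End.one_apply] at h4
      exact h4.symm
    obtain ⟨i, hi⟩ := h2
    refine ⟨_, hi, ?_⟩
    rw [← Module.End.mul_apply, ← map_mul]
    congr 2
    refine LinearMap.ext fun z => ?_
    rw [Module.End.mul_apply, LinearMap.smulRight_apply, LinearMap.smulRight_apply, map_smul, hf,
      smul_eq_mul, mul_one]
  -- the map
  obtain ⟨F, hF⟩ : ∃ F : V l →ₗ[ZMod 2] V k, ∀ u, F u = θ (f.smulRight u) v := by
    refine ⟨AddMonoidHom.toZModLinearMap 2 (AddMonoidHom.mk' (fun u => θ (f.smulRight u) v) ?_),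
      fun u => rfl⟩
    intro u u'
    have h1 : (f.smulRight (u + u') : Module.End (ZMod 2) (V l)) =
        f.smulRight u + f.smulRight u' := by
      refine LinearMap.ext fun z => ?_
      rw [LinearMap.add_apply, LinearMap.smulRight_apply, LinearMap.smulRight_apply,
        LinearMap.smulRight_apply, smul_add]
    rw [h1, map_add, LinearMap.add_apply]
  have hFg : ∀ (g : Module.End (ZMod 2) (V l)) u, F (g u) = θ g (F u) := by
    intro g u
    rw [hF, hF, ← Module.End.mul_apply, ← map_mul]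
    congr 2
    refine LinearMap.ext fun z => ?_
    rw [Module.End.mul_apply, LinearMap.smulRight_apply, LinearMap.smulRight_apply, map_smul]
  have hFw : F w = v := by rw [hF, hvw]
  have hinj : Function.Injective F := by
    rw [injective_iff_map_eq_zero]
    intro u hu
    by_contra hu0
    obtain ⟨h, hh⟩ := exists_fun u hu0
    have h1 := hFg (h.smulRight w) u
    rw [LinearMap.smulRight_apply, hh, one_smul, hu, map_zero, hFw] at h1
    exact hv h1
  have hsurj : Function.Surjective F := by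
    intro v'
    obtain ⟨h, hh⟩ := exists_fun v hv
    obtain ⟨x, hx, hxk⟩ := sur hT k (h.smulRight v')
    refine ⟨x l w, ?_⟩
    rw [hFg, ← hθx x hx, hxk, hFw, LinearMap.smulRight_apply, hh, one_smul]
  refine hiso l k hkl.symm ⟨LinearEquiv.ofBijective F ⟨hinj, hsurj⟩, fun φ x => ?_⟩
  change F (T l φ x) = T k φ (F x)
  rw [hFg]
  congr 1
  exact (hθx (fun k => T k φ) (Algebra.subset_adjoin ⟨φ, rfl⟩)).symm

omit [Fintype s] [Fintype κ] in
/-- separation with the identity -/
theorem sep_one (hT : ∀ k, Algebra.adjoin (ZMod 2) (Set.range (T k)) = ⊤)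
    (hiso : ∀ k l, k ≠ l → ¬ ∃ f : V k ≃ₗ[ZMod 2] V l, ∀ φ x, f (T k φ x) = T l φ (f x))
    (k l : κ) (hkl : k ≠ l) : ∃ x ∈ AA T, x l = 0 ∧ x k = 1 := by
  obtain ⟨x, hx, hxl, hxk⟩ := sep hT hiso k l hkl
  obtain ⟨u, hu⟩ : ∃ u, x k u ≠ 0 := by
    by_contra h
    push Not at h
    exact hxk (LinearMap.ext h)
  obtain ⟨f, hf⟩ := exists_fun _ hu
  choose X hXA hX using sur hT k
  refine ⟨∑ i, X (f.smulRight (Module.finBasis (ZMod 2) (V k) i)) * x *
    X (((Module.finBasis (ZMod 2) (V k)).coord i).smulRight u), ?_, ?_, ?_⟩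
  · exact sum_mem fun i _ => mul_mem (mul_mem (hXA _) hx) (hXA _)
  · rw [Finset.sum_apply]
    refine Finset.sum_eq_zero fun i _ => ?_
    rw [Pi.mul_apply, Pi.mul_apply, hxl, mul_zero, zero_mul]
  · rw [Finset.sum_apply, ← one_sum f (x k) u hf]
    refine Finset.sum_congr rfl fun i _ => ?_
    rw [Pi.mul_apply, Pi.mul_apply, hX, hX]

end

/-- **JQ-ADJ0.** -/
theorem t_ADJ0 : S_ADJ0 := by
  intro s κ _ _ V _ _ _ _ T hT hiso
  classical
  change AA T = ⊤
  have hidem : ∀ (k : κ) (S : Finset κ), k ∉ S → ∃ e ∈ AA T, e k = 1 ∧ ∀ l ∈ S, e l = 0 := by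
    intro k S
    induction S using Finset.induction_on with
    | empty =>
      intro _
      exact ⟨1, one_mem _, rfl, fun l hl => absurd hl (Finset.notMem_empty l)⟩
    | insert a S ha ih =>
      intro hk
      rw [Finset.mem_insert, not_or] at hk
      obtain ⟨e, he, he1, he2⟩ := ih hk.2
      obtain ⟨x, hx, hx1, hx2⟩ := sep_one hT hiso k a hk.1
      refine ⟨e * x, mul_mem he hx, ?_, fun l hl => ?_⟩
      · rw [Pi.mul_apply, he1, hx2, mul_one]
      · rw [Finset.mem_insert] at hl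
        rcases hl with rfl | hl
        · rw [Pi.mul_apply, hx1, mul_zero]
        · rw [Pi.mul_apply, he2 l hl, zero_mul]
  rw [eq_top_iff]
  intro z _
  choose X hXA hX using fun k => sur hT k (z k)
  choose e heA he1 he2 using fun k => hidem k (univ.erase k) (Finset.notMem_erase k _)
  have hz : z = ∑ k, e k * X k := by
    funext l
    rw [Finset.sum_apply, Finset.sum_eq_single l]
    · rw [Pi.mul_apply, he1, hX, one_mul]
    · intro k _ hk
      rw [Pi.mul_apply, he2 k l (Finset.mem_erase.mpr ⟨hk.symm, mem_univ _⟩), zero_mul]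
    · intro h
      exact absurd (mem_univ l) h
  rw [hz]
  exact sum_mem fun k _ => mul_mem (heA k) (hXA k)

end Pool.Agent.Q153.JQ
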