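import Pool.Agent.Q44.JQ.StmC

set_option autoImplicit false

/-! Project JQ (helper44), job ARX (helper153): the package for one curve. -/

namespace Pool.Agent.Q153.JQ

open Finset Module
open Pool.Agent.Y703.CQ (nr)
open Pool.Agent.TH344.JG (LocJ SelJ PR df)
open Pool.Agent.Y723.PT (tw dc LG)
open Q44.BN (jv)
open Q44.TI (ch)
open Q44.JQ
open scoped Classical

/-! ### Reciprocity -/

theorem rcc {p t : ℕ} (hp : p.Prime) (hp2 : p ≠ 2) (ht : Odd t) (hpt : ¬ p ∣ t) :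
    jv (p : ℤ) t + (if p % 4 = 1 then 0 else 1) * jv (-1) t = ch ((t : ℕ) : ZMod p) := by
  have : Fact p.Prime := ⟨hp⟩
  have ho := hp.odd_of_ne_two hp2
  have hc : ((t : ℤ)).gcd p = 1 := by
    rw [Int.gcd_natCast_natCast]
    exact ((Nat.Prime.coprime_iff_not_dvd hp).mpr hpt).symm
  have h0 : ((t : ℕ) : ZMod p) ≠ 0 := by
    intro h
    exact hpt ((ZMod.natCast_eq_zero_iff _ _).mp h)
  have h1 : ch ((t : ℕ) : ZMod p) = if jacobiSym (t : ℤ) p = 1 then 0 else 1 := by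
    unfold ch
    rw [← jacobiSym.legendreSym.to_jacobiSym]
    by_cases h : IsSquare ((t : ℕ) : ZMod p)
    · rw [if_pos h, if_pos ((legendreSym.eq_one_iff p (by exact_mod_cast h0)).mpr (by exact_mod_cast h))]
    · rw [if_neg h, if_neg]
      intro hh
      exact h (by exact_mod_cast (legendreSym.eq_one_iff p (by exact_mod_cast h0)).mp hh)
  have h2 : jacobiSym (t : ℤ) p = 1 ∨ jacobiSym (t : ℤ) p = -1 := jacobiSym.eq_one_or_neg_one hc
  rw [h1]
  unfold jv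
  rw [jacobiSym.at_neg_one ht]
  have hpm : p % 4 = 1 ∨ p % 4 = 3 := by
    have := Nat.odd_iff.mp ho
    omega
  have htm : t % 4 = 1 ∨ t % 4 = 3 := by
    have := Nat.odd_iff.mp ht
    omega
  rcases hpm with h | h
  · rw [if_pos h, zero_mul, add_zero, jacobiSym.quadratic_reciprocity_one_mod_four h ht]
  · rw [if_neg (by omega : ¬ p % 4 = 1), one_mul]
    rcases htm with h' | h'
    · rw [ZMod.χ₄_nat_one_mod_four h', if_pos rfl, add_zero,
        ← jacobiSym.quadratic_reciprocity_one_mod_four h' ho]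
    · rw [ZMod.χ₄_nat_three_mod_four h', jacobiSym.quadratic_reciprocity_three_mod_four h h']
      rcases h2 with h3 | h3 <;> rw [h3] <;> decide

theorem sq_mod {p t : ℕ} [Fact p.Prime] (hpt : ¬ p ∣ t) (h : IsSquare ((t : ℕ) : ℚ_[p])) :
    IsSquare ((t : ℕ) : ZMod p) := by
  obtain ⟨x, hx⟩ := h
  have h1 : ‖((t : ℕ) : ℚ_[p])‖ = 1 := by
    rw [Padic.norm_natCast_eq_one_iff]
    exact (Nat.Prime.coprime_iff_not_dvd Fact.out).mpr hpt
  have h2 : ‖x‖ = 1 := by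
    have : ‖x‖ * ‖x‖ = 1 := by rw [← norm_mul, ← hx, h1]
    nlinarith [norm_nonneg x]
  set y : ℤ_[p] := ⟨x, h2.le⟩ with hy
  have h3 : ((t : ℕ) : ℤ_[p]) = y * y := by
    apply Subtype.ext
    push_cast
    exact hx
  have h4 := congrArg (PadicInt.toZMod (p := p)) h3
  rw [map_natCast, map_mul] at h4
  exact ⟨_, h4⟩

/-! ### Linear algebra -/

theorem mk_sub {M : Type} [AddCommGroup M] [Module (ZMod 2) M] (P : M → Prop) (h0 : P 0)
    (ha : ∀ x y, P x → P y → P (x + y)) : ∃ R : Submodule (ZMod 2) M, ∀ y, y ∈ R ↔ P y :=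
  ⟨{ carrier := {y | P y}
     add_mem' := fun {x y} hx hy => ha x y hx hy
     zero_mem' := h0
     smul_mem' := by
      intro c x hx
      have hc : ∀ c : ZMod 2, c = 0 ∨ c = 1 := by decide
      rcases hc c with rfl | rfl
      · rw [zero_smul]
        exact h0
      · rw [one_smul]
        exact hx }, fun y => Iff.rfl⟩

theorem add_self2 {M : Type} [AddCommGroup M] [Module (ZMod 2) M] (x : M) : x + x = 0 := by
  have h : ((1 : ZMod 2) + 1) • x = 0 := by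
    have : (1 : ZMod 2) + 1 = 0 := by decide
    rw [this, zero_smul]
  rwa [add_smul, one_smul] at h

section curve

variable {T : Finset ℕ} (c : Cr T)

theorem rc_add (p : T) (φ ψ : Option T → ZMod 2) : rc p (φ + ψ) = rc p φ + rc p ψ := by
  unfold rc
  simp only [Pi.add_apply]
  ring

theorem un_add (p : T) (y y' : (Option T → c.V) × (Option T → c.V)) (i : Fin (2 * c.g + 1)) :
    c.un p (y + y') i = c.un p y i + c.un p y' i := by
  unfold Cr.un
  have h : (fun o => (((y + y').2 o).1 i : ZMod 2)) =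
      (fun o => (y.2 o).1 i) + fun o => (y'.2 o).1 i := by
    funext o
    rfl
  rw [h, rc_add]
  have h2 : ∀ o, ch ((tv o : ℤ) : ZMod p) * (((y + y').1 o).1 i) =
      ch ((tv o : ℤ) : ZMod p) * (y.1 o).1 i + ch ((tv o : ℤ) : ZMod p) * (y'.1 o).1 i := by
    intro o
    have : ((y + y').1 o).1 i = (y.1 o).1 i + (y'.1 o).1 i := rfl
    rw [this, mul_add]
  rw [Finset.sum_congr rfl fun o _ => h2 o, sum_add_distrib]
  ring

theorem un_zero (p : T) (i : Fin (2 * c.g + 1)) : c.un p 0 i = 0 := by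
  have h := un_add c p 0 0 i
  rw [add_zero] at h
  have h2 : ∀ x : ZMod 2, x = x + x → x = 0 := by decide
  exact h2 _ h

end curve

/-- the value of the quadratic form -/
theorem q_val {T : Finset ℕ} (hT : ∀ p ∈ T, p.Prime) (h2T : 2 ∈ T) (hLBL : S_LBL) (hLOCI : S_LOCI)
    (hQZ : S_QZ) (hQLOC : S_QLOC) (hGOODL : S_GOODL) (hNICEL : S_NICEL) (c : Cr T) (p₁ : T)
    (k : PR (2 * c.g + 1)) (hN : c.Nice p₁ k)
    (𝓛 : Submodule (ZMod 2) ((Option T → c.V) × (Option T → c.V))) (ρ : Option T → ZMod 2)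
    (y : (Option T → c.V) × (Option T → c.V)) (hR : c.Lc ℝ ρ y)
    (hp : ∀ p : T, p ≠ p₁ → c.Lp p ρ y ∨ (c.Good p ∧ y.1 (some p) = 0))
    (h1 : ∀ l, l ≠ k.1.1 → l ≠ k.1.2 → (y.1 (some p₁)).1 l = 0) :
    (c.dj 𝓛).q y = if (y.1 (some p₁)).1 k.1.1 = 0 then
      c.un p₁ y k.1.1 + c.un p₁ y k.1.2 else 0 := by
  obtain ⟨-, -, -, l4, -, l6, -, -⟩ := hLBL T hT h2T
  have hcop : ∀ p : ℕ, p.Prime → p ∉ T → Cop T p := by
    intro p hpp hpT t ht hd
    rcases (Nat.dvd_prime hpp).mp hd with h | h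
    · exact (hT t ht).one_lt.ne' h
    · rw [h] at ht
      exact hpT ht
  obtain ⟨n, hn, -, hnT, hnl⟩ := l4 ρ 0
  have hz : ∀ i : Fin (2 * c.g + 1), ∃ p : ℕ, p.Prime ∧ p ∉ T ∧
      lbl T p = fun o => (y.2 o).1 i := by
    intro i
    obtain ⟨p, h1, -, h2, h3⟩ := l4 (fun o => (y.2 o).1 i) 0
    exact ⟨p, h1, h2, h3⟩
  choose z hz1 hz2 hz3 using hz
  have hzl : ∀ i, Cop T (z i) ∧ lbl T (z i) = fun o => (y.2 o).1 i := fun i =>
    ⟨hcop _ (hz1 i) (hz2 i), hz3 i⟩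
  have hnc := hcop n hn hnT
  have hn0 : ((n : ℕ) : ℤ) ≠ 0 := by exact_mod_cast hn.ne_zero
  have hd0 : ∀ i, c.dz y.1 z i ≠ 0 := by
    intro i
    unfold Cr.dz
    refine mul_ne_zero (l6 _).1.ne_zero ?_
    exact_mod_cast (hz1 i).ne_zero
  obtain ⟨o1, o2⟩ := hLOCI T hT h2T c ρ y n z hnc hnl hzl
  have hodd : Odd (2 * c.g + 1) := ⟨c.g, rfl⟩
  rw [hQZ T hT h2T c 𝓛 y z hzl]
  rw [hQLOC.2 (2 * c.g + 1) c.a (c.dz y.1 z) n hodd hn0 c.inj hd0 (o1.mp hR), zero_add]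
  rw [Finset.sum_eq_single (p₁ : ℕ)]
  · exact (hNICEL T hT h2T c p₁ k hN).2 y h1 z hzl
  · intro p hpT hne
    have hne' : (⟨p, hpT⟩ : T) ≠ p₁ := fun h => hne (by rw [← h])
    rcases hp ⟨p, hpT⟩ hne' with h | ⟨h, h'⟩
    · have : Fact p.Prime := ⟨hT p hpT⟩
      have h3 : c.Lc ℚ_[p] ρ y := h
      exact hQLOC.1 p (2 * c.g + 1) c.a (c.dz y.1 z) n hodd hn0 c.inj hd0 ((o2 p hpT).mp h3)
    · exact (hGOODL T hT h2T c ⟨p, hpT⟩ h).2 y h' z hzl
  · intro h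
    exact absurd p₁.2 h

theorem t_ARX (hOMV : S_OMV) (hLOCI : S_LOCI) (hLCL : S_LCL) (hLCC : S_LCC) (hSELX : S_SELX)
    (hQZ : S_QZ) (hQLOC : S_QLOC) (hGOODL : S_GOODL) (hNICEL : S_NICEL) (hBEX : S_BEX)
    (hFLIP : S_FLIP) (hLBL : S_LBL) : S_ARX := by
  intro T hT h2T c p₁ k Q hN hG
  have hk12 : k.1.1 ≠ k.1.2 := k.2.ne
  have hQ1 : ∀ q ∈ Q, q ≠ p₁ := by
    rintro q hq rfl
    exact (hG q hq).2 k.1.1 k.1.2 hk12 hN.2.1
  have hp2 : (p₁ : ℕ) ≠ 2 := hN.1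
  choose b b1 b2 b3 b4 b5 using fun σ => hBEX T hT h2T c p₁ k hp2 σ
  have bk1 : ∀ σ, ((b σ).1 (some p₁)).1 k.1.1 = 1 := fun σ => by rw [b4, if_pos (Or.inl rfl)]
  have bk2 : ∀ σ, ((b σ).1 (some p₁)).1 k.1.2 = 1 := fun σ => by rw [b4, if_pos (Or.inr rfl)]
  have bl : ∀ σ l, l ≠ k.1.1 → l ≠ k.1.2 → ((b σ).1 (some p₁)).1 l = 0 := fun σ l h h' => by
    rw [b4, if_neg (by rintro (h'' | h''); exacts [h h'', h' h''])]
  have bLp : ∀ σ (p : T), p ≠ p₁ → ∀ ρ, c.Lp p ρ (b σ) := fun σ p hp ρ =>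
    b2 σ p p.2 (fun h => hp (Subtype.ext h)) ρ
  -- linearity of the local conditions
  have lcR0 : ∀ ρ, c.Lc ℝ ρ 0 := fun ρ => (hLCL T hT h2T c ρ).2.1
  have lcR : ∀ ρ y y', c.Lc ℝ ρ y → c.Lc ℝ ρ y' → c.Lc ℝ ρ (y + y') := fun ρ =>
    (hLCL T hT h2T c ρ).1
  have lp0 : ∀ (p : T) ρ, c.Lp p ρ 0 := fun p ρ _ => ((hLCL T hT h2T c ρ).2.2.2 p p.2).2.1
  have lpa : ∀ (p : T) ρ y y', c.Lp p ρ y → c.Lp p ρ y' → c.Lp p ρ (y + y') :=
    fun p ρ y y' h h' _ => ((hLCL T hT h2T c ρ).2.2.2 p p.2).1 y y' h h'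
  -- the subspace `R ρ`
  have hRe : ∀ ρ : Option T → ZMod 2, ∃ R : Submodule (ZMod 2) ((Option T → c.V) × (Option T → c.V)),
      ∀ y, y ∈ R ↔ (c.Lc ℝ ρ y ∧ (∀ p : T, p ≠ p₁ → p ∉ Q → c.Lp p ρ y) ∧
        (∀ q ∈ Q, y.1 (some q) = 0) ∧ y.1 (some p₁) = 0 ∧
        c.un p₁ y k.1.1 + c.un p₁ y k.1.2 = 0) := by
    intro ρ
    refine mk_sub _ ?_ ?_
    · refine ⟨lcR0 ρ, fun p _ _ => lp0 p ρ, fun q _ => rfl, rfl, ?_⟩
      rw [un_zero, un_zero, add_zero]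
    · rintro x y ⟨x1, x2, x3, x4, x5⟩ ⟨y1, y2, y3, y4, y5⟩
      refine ⟨lcR ρ x y x1 y1, fun p h h' => lpa p ρ x y (x2 p h h') (y2 p h h'), fun q hq => ?_,
        ?_, ?_⟩
      · have : (x + y).1 (some q) = x.1 (some q) + y.1 (some q) := rfl
        rw [this, x3 q hq, y3 q hq, add_zero]
      · have : (x + y).1 (some p₁) = x.1 (some p₁) + y.1 (some p₁) := rfl
        rw [this, x4, y4, add_zero]
      · rw [un_add, un_add]
        have : c.un p₁ x k.1.1 + c.un p₁ y k.1.1 + (c.un p₁ x k.1.2 + c.un p₁ y k.1.2) =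
            (c.un p₁ x k.1.1 + c.un p₁ x k.1.2) + (c.un p₁ y k.1.1 + c.un p₁ y k.1.2) := by ring
        rw [this, x5, y5, add_zero]
  choose R hR using hRe
  -- values of the quadratic form
  have qv1 := fun ρ y h h' h'' => q_val hT h2T hLBL hLOCI hQZ hQLOC hGOODL hNICEL c p₁ k hN ⊥ ρ y
    h h' h''
  have cR : ∀ ρ, ∀ y ∈ R ρ, (c.dj ⊥).q y = 0 := by
    intro ρ y hy
    obtain ⟨y1, y2, y3, y4, y5⟩ := (hR ρ y).mp hy
    have e : (y.1 (some p₁)).1 k.1.1 = 0 := by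
      rw [y4]
      rfl
    rw [qv1 ρ y y1 ?_ ?_, if_pos e, y5]
    · intro p hp
      by_cases h : p ∈ Q
      · exact Or.inr ⟨hG p h, y3 p h⟩
      · exact Or.inl (y2 p hp h)
    · intro l _ _
      rw [y4]
      rfl
  have cb : ∀ σ, (c.dj ⊥).q (b σ) = 0 := by
    intro σ
    rw [qv1 0 (b σ) (b1 σ 0) (fun p hp => Or.inl (bLp σ p hp 0)) (bl σ), bk1 σ,
      if_neg (by decide)]
  have cRb : ∀ ρ σ, ∀ y ∈ R ρ, (c.dj ⊥).q (y + b σ) = 0 := by
    intro ρ σ y hy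
    obtain ⟨y1, y2, y3, y4, y5⟩ := (hR ρ y).mp hy
    have e : ∀ l, ((y + b σ).1 (some p₁)).1 l = ((b σ).1 (some p₁)).1 l := by
      intro l
      have : (y + b σ).1 (some p₁) = y.1 (some p₁) + (b σ).1 (some p₁) := rfl
      rw [this, y4, zero_add]
    rw [qv1 ρ (y + b σ) (lcR ρ _ _ y1 (b1 σ ρ)) ?_ ?_, e, bk1 σ, if_neg (by decide)]
    · intro p hp
      by_cases h : p ∈ Q
      · refine Or.inr ⟨hG p h, ?_⟩
        have : (y + b σ).1 (some p) = y.1 (some p) + (b σ).1 (some p) := rfl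
        rw [this, y3 p h, b3 σ p hp, add_zero]
      · exact Or.inl (lpa p ρ _ _ (y2 p hp h) (bLp σ p hp ρ))
    · intro l h h'
      rw [e, bl σ l h h']
  have cbb : (c.dj ⊥).q (b 0 + b 1) = 1 := by
    have e : ∀ l, ((b 0 + b 1).1 (some p₁)).1 l =
        ((b 0).1 (some p₁)).1 l + ((b 1).1 (some p₁)).1 l := fun l => rfl
    rw [qv1 0 (b 0 + b 1) (lcR 0 _ _ (b1 0 0) (b1 1 0))
      (fun p hp => Or.inl (lpa p 0 _ _ (bLp 0 p hp 0) (bLp 1 p hp 0))) ?_, e, bk1, bk1,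
      if_pos (by decide), un_add, un_add]
    · have h0 := b5 0
      have h1 := b5 1
      have : c.un p₁ (b 0) k.1.1 + c.un p₁ (b 1) k.1.1 + (c.un p₁ (b 0) k.1.2 + c.un p₁ (b 1) k.1.2) =
          (c.un p₁ (b 0) k.1.1 + c.un p₁ (b 0) k.1.2) + (c.un p₁ (b 1) k.1.1 + c.un p₁ (b 1) k.1.2) := by
        ring
      rw [this, h0, h1, zero_add]
    · intro l h h'
      rw [e, bl 0 l h h', bl 1 l h h', add_zero]
  -- the choice
  obtain ⟨hSym, hnd, hcard, hfr, hnt⟩ := hOMV T c ⊥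
  have hfl : ∀ R' : Submodule (ZMod 2) ((Option T → c.V) × (Option T → c.V)),
      ((∀ y ∈ R', (c.dj ⊥).q y = 0) ∧ (∀ σ, ∀ y ∈ R', (c.dj ⊥).q (y + b σ) = 0)) →
      ∃ 𝓛 : ZMod 2 → Submodule (ZMod 2) ((Option T → c.V) × (Option T → c.V)), ∀ σ, R' ≤ 𝓛 σ ∧
        b σ ∈ 𝓛 σ ∧ Nat.card (𝓛 σ) = Nat.card c.V ^ Fintype.card (Option T) ∧
        (∀ y ∈ 𝓛 σ, (c.dj ⊥).q y = 0) ∧
        ((finrank (ZMod 2) (c.dj (𝓛 (σ + 1))).pm : ℕ) : ZMod 2) =
          ((finrank (ZMod 2) (c.dj (𝓛 σ)).pm : ℕ) : ZMod 2) + 1 := by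
    intro R' h
    exact hFLIP (Option T) c.V (c.dj ⊥) hSym hnd R' b h.1 cb h.2 cbb
  choose F hF using hfl
  have hc : ∀ ρ, (∀ y ∈ R ρ, (c.dj ⊥).q y = 0) ∧ (∀ σ, ∀ y ∈ R ρ, (c.dj ⊥).q (y + b σ) = 0) :=
    fun ρ => ⟨cR ρ, cRb ρ⟩
  -- elements with all local conditions
  have hA : ∀ ρ y, c.Lc ℝ ρ y → (∀ p ∈ T, c.Lp p ρ y) →
      y ∈ F (R ρ) (hc ρ) (c.sgn p₁ k ρ) := by
    intro ρ y y1 y2
    obtain ⟨f1, f2, -, -, -⟩ := hF (R ρ) (hc ρ) (c.sgn p₁ k ρ)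
    obtain ⟨n1, n2⟩ := (hNICEL T hT h2T c p₁ k hN).1 ρ y (y2 p₁ p₁.2)
    have hy3 : ∀ q ∈ Q, y.1 (some q) = 0 := fun q hq =>
      (hGOODL T hT h2T c q (hG q hq)).1 ρ y (y2 q q.2)
    -- the two components agree
    have hsum : (y.1 (some p₁)).1 k.1.1 + (y.1 (some p₁)).1 k.1.2 = 0 := by
      have h := mem_VV.mp (y.1 (some p₁)).2
      rw [← Finset.add_sum_erase univ _ (mem_univ k.1.1),
        ← Finset.add_sum_erase (univ.erase k.1.1) _ (mem_erase.mpr ⟨hk12.symm, mem_univ k.1.2⟩),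
        Finset.sum_eq_zero (s := (univ.erase k.1.1).erase k.1.2), add_zero] at h
      · exact h
      · intro l hl
        rw [mem_erase, mem_erase] at hl
        exact n1 l hl.2.1 hl.1
    have hv : ∀ v : ZMod 2, v = 0 ∨ v = 1 := by decide
    rcases hv ((y.1 (some p₁)).1 k.1.1) with hv | hv
    · -- trivial at `p₁`
      refine f1 ((hR ρ y).mpr ⟨y1, fun p _ _ => y2 p p.2, hy3, ?_, ?_⟩)
      · refine Subtype.ext (funext fun l => ?_)
        show (y.1 (some p₁)).1 l = 0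
        by_cases h : l = k.1.1
        · rw [h, hv]
        · by_cases h' : l = k.1.2
          · rw [h']
            rwa [hv, zero_add] at hsum
          · exact n1 l h h'
      · rw [n2, hv, zero_mul]
    · set σ := c.sgn p₁ k ρ with hσ
      have hmem : y + b σ ∈ R ρ := by
        refine (hR ρ _).mpr ⟨lcR ρ _ _ y1 (b1 σ ρ), fun p hp _ =>
          lpa p ρ _ _ (y2 p p.2) (bLp σ p hp ρ), fun q hq => ?_, ?_, ?_⟩
        · have : (y + b σ).1 (some q) = y.1 (some q) + (b σ).1 (some q) := rfl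
          rw [this, hy3 q hq, b3 σ q (hQ1 q hq), add_zero]
        · refine Subtype.ext (funext fun l => ?_)
          show (y.1 (some p₁)).1 l + ((b σ).1 (some p₁)).1 l = 0
          by_cases h : l = k.1.1
          · rw [h, hv, bk1]
            decide
          · by_cases h' : l = k.1.2
            · rw [h', bk2]
              rw [hv] at hsum
              rw [add_comm]
              exact hsum
            · rw [n1 l h h', bl σ l h h', add_zero]
        · rw [un_add, un_add]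
          have h5 := b5 σ
          have : c.un p₁ y k.1.1 + c.un p₁ (b σ) k.1.1 + (c.un p₁ y k.1.2 + c.un p₁ (b σ) k.1.2) =
              (c.un p₁ y k.1.1 + c.un p₁ y k.1.2) + (c.un p₁ (b σ) k.1.1 + c.un p₁ (b σ) k.1.2) := by
            ring
          rw [this, n2, h5, hv, one_mul]
          have h2 : ∀ x : ZMod 2, x + x = 0 := by decide
          exact h2 _
      have he : y = (y + b σ) + b σ := by rw [add_assoc, add_self2, add_zero]
      rw [he]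
      exact Submodule.add_mem _ (f1 hmem) f2
  refine ⟨fun ρ => F (R ρ) (hc ρ) (c.sgn p₁ k ρ), ?_, ?_, ?_⟩
  · -- the conditions
    intro ρ
    obtain ⟨f1, f2, f3, f4, f5⟩ := hF (R ρ) (hc ρ) (c.sgn p₁ k ρ)
    refine ⟨⟨hSym.alt, hSym.adj⟩, hnd, f3, f4, fun x => ?_⟩
    have hps : ∀ t : Option T, @Pi.single (Option T) (fun _ => ZMod 2) _
        (fun a b => Classical.propDecidable (a = b)) t 1 = (Pi.single t 1 : Option T → ZMod 2) := by
      intro t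
      congr 1
      exact Subsingleton.elim _ _
    have hx : ((fun t => (c.dj (F (R ρ) (hc ρ) (c.sgn p₁ k ρ))).T (@Pi.single (Option T) (fun _ => ZMod 2) _
        (fun a b => Classical.propDecidable (a = b)) t 1) x), (fun t => ρ t • x)) =
        (((fun t => c.TT (Pi.single t 1) x), (fun t => ρ t • x)) :
          (Option T → c.V) × (Option T → c.V)) := by
      refine Prod.ext (funext fun t => ?_) rfl
      show c.TT (@Pi.single (Option T) (fun _ => ZMod 2) _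
        (fun a b => Classical.propDecidable (a = b)) t 1) x = c.TT (Pi.single t 1) x
      rw [hps t]
    show ((fun t => (c.dj (F (R ρ) (hc ρ) (c.sgn p₁ k ρ))).T (@Pi.single (Option T) (fun _ => ZMod 2) _
        (fun a b => Classical.propDecidable (a = b)) t 1) x), (fun t => ρ t • x)) ∈
        F (R ρ) (hc ρ) (c.sgn p₁ k ρ)
    rw [hx]
    refine hA ρ _ ((hLCL T hT h2T c ρ).2.2.1 x) fun p hp => ?_
    intro _
    exact ((hLCL T hT h2T c ρ).2.2.2 p hp).2.2 x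
  · intro ρ S hS hρ
    exact hSELX T hT h2T c ρ _ (hA ρ) S hS hρ
  · intro ρ q hq t ht hsq hnsq
    -- the same `R`
    have h2 : ∀ φ : Option T → ZMod 2, φ + lbl T t + lbl T t = φ := fun φ => by
      rw [add_assoc, add_self2, add_zero]
    have cR1 : ∀ ρ' y, c.Lc ℝ ρ' y → c.Lc ℝ (ρ' + lbl T t) y := fun ρ' y =>
      (hLCC T hT h2T c ρ' t ht y).1
    have cp1 : ∀ (p : T), p ≠ q → ∀ ρ' y, c.Lp p ρ' y → c.Lp p (ρ' + lbl T t) y := by
      intro p hp ρ' y h _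
      exact (hLCC T hT h2T c ρ' t ht y).2 p p.2 (hsq p p.2 fun h => hp (Subtype.ext h)) h
    have hRR : R (ρ + lbl T t) = R ρ := by
      ext y
      rw [hR, hR]
      have hpq : ∀ p : T, p ≠ p₁ → p ∉ Q → p ≠ q := by
        rintro p hp1 hp2 rfl
        rcases hq with h | h
        · exact hp1 h
        · exact hp2 h
      constructor
      · rintro ⟨y1, y2, y3⟩
        refine ⟨?_, fun p hp hp' => ?_, y3⟩
        · have := cR1 _ y y1
          rwa [h2] at this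
        · have h3 : c.Lp (p : ℕ) (ρ + lbl T t + lbl T t) y :=
            @cp1 p (hpq p hp hp') _ y (@y2 p hp hp')
          rw [h2] at h3
          exact @h3
      · rintro ⟨y1, y2, y3⟩
        exact ⟨cR1 _ y y1, fun p hp hp' => cp1 p (hpq p hp hp') _ y (y2 p hp hp'), y3⟩
    have hFF : F (R (ρ + lbl T t)) (hc (ρ + lbl T t)) = F (R ρ) (hc ρ) := by
      have : ∀ (R₁ R₂ : Submodule (ZMod 2) ((Option T → c.V) × (Option T → c.V))) (h : R₁ = R₂)
          (h1 : _) (h2 : _), F R₁ h1 = F R₂ h2 := by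
        rintro R₁ _ rfl h1 h2
        rfl
      exact this _ _ hRR _ _
    -- the sign
    have hpt : ∀ p : T, ¬ (p : ℕ) ∣ t := fun p => ht p p.2
    have hto : Odd t := by
      rw [← Nat.not_even_iff_odd, even_iff_two_dvd]
      exact ht 2 h2T
    have hrc : rc p₁ (lbl T t) = ch ((t : ℕ) : ZMod p₁) :=
      rcc (hT p₁ p₁.2) hp2 hto (hpt p₁)
    have hsgn : c.sgn p₁ k (ρ + lbl T t) = c.sgn p₁ k ρ + ch ((t : ℕ) : ZMod p₁) := by
      unfold Cr.sgn
      rw [rc_add, hrc]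
      ring
    show ((finrank (ZMod 2) (c.dj (F (R (ρ + lbl T t)) (hc (ρ + lbl T t))
        (c.sgn p₁ k (ρ + lbl T t)))).pm : ℕ) : ZMod 2) =
      ((finrank (ZMod 2) (c.dj (F (R ρ) (hc ρ) (c.sgn p₁ k ρ))).pm : ℕ) : ZMod 2) +
        if q = p₁ then 1 else 0
    rw [hFF, hsgn]
    by_cases hqp : q = p₁
    · rw [if_pos hqp]
      have h1 : ch ((t : ℕ) : ZMod p₁) = 1 := by
        unfold ch
        rw [if_neg]
        rw [← hqp]
        exact hnsq
      rw [h1]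
      exact (hF (R ρ) (hc ρ) (c.sgn p₁ k ρ)).2.2.2.2
    · rw [if_neg hqp, add_zero]
      have : Fact (p₁ : ℕ).Prime := ⟨hT p₁ p₁.2⟩
      have h1 : ch ((t : ℕ) : ZMod p₁) = 0 := by
        unfold ch
        rw [if_pos]
        exact sq_mod (hpt p₁) (hsq p₁ p₁.2 fun h => hqp (Subtype.ext h).symm)
      rw [h1, add_zero]

end Pool.Agent.Q153.JQ
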