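import Pool.Agent.Q44.JQ.StmG

/-! Project JQ (helper44), job JQ-ISO1 (helper153): isomorphisms of the modules of two elliptic
curves. -/

set_option autoImplicit false

namespace Pool.Agent.Q153.JQ

open Finset Module
open Q44.JQ
open scoped Classical

theorem sum3 {i j l : Fin 3} (hij : i ≠ j) (hli : l ≠ i) (hlj : l ≠ j) (F : Fin 3 → ZMod 2) :
    ∑ m, F m = F i + F j + F l := by
  have h : ∀ i j l : Fin 3, i ≠ j → l ≠ i → l ≠ j →
      (i = 0 ∧ j = 1 ∧ l = 2) ∨ (i = 0 ∧ j = 2 ∧ l = 1) ∨ (i = 1 ∧ j = 0 ∧ l = 2) ∨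
      (i = 1 ∧ j = 2 ∧ l = 0) ∨ (i = 2 ∧ j = 0 ∧ l = 1) ∨ (i = 2 ∧ j = 1 ∧ l = 0) := by decide
  rw [Fin.sum_univ_three]
  rcases h i j l hij hli hlj with ⟨rfl, rfl, rfl⟩ | ⟨rfl, rfl, rfl⟩ | ⟨rfl, rfl, rfl⟩ |
    ⟨rfl, rfl, rfl⟩ | ⟨rfl, rfl, rfl⟩ | ⟨rfl, rfl, rfl⟩ <;> ring

theorem third (i j : Fin 3) (hij : i ≠ j) : ∃ l : Fin 3, l ≠ i ∧ l ≠ j := by
  revert i j
  decide

theorem add_self2' (x : ZMod 2) : x + x = 0 := by
  revert x
  decide

/-- the three elements different from zero -/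
def Pt (i : Fin 3) : VV 3 := ⟨fun m => if m = i then 0 else 1, by
  rw [mem_VV]
  revert i
  decide⟩

theorem Pt_self (i : Fin 3) : (Pt i).1 i = 0 := if_pos rfl

theorem Pt_ne {i m : Fin 3} (h : m ≠ i) : (Pt i).1 m = 1 := if_neg h

theorem Pt_inj {i j : Fin 3} (h : Pt i = Pt j) : i = j := by
  by_contra hij
  have h1 : (Pt i).1 i = (Pt j).1 i := by rw [h]
  rw [Pt_self, Pt_ne hij] at h1
  exact zero_ne_one h1

theorem Pt_ne_zero (i : Fin 3) : Pt i ≠ 0 := by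
  intro h
  obtain ⟨j, hj⟩ : ∃ j : Fin 3, j ≠ i := by
    revert i
    decide
  have h1 : (Pt i).1 j = (0 : VV 3).1 j := by rw [h]
  rw [Pt_ne hj] at h1
  exact one_ne_zero h1

theorem exists_Pt (x : VV 3) (hx : x ≠ 0) : ∃ i, x = Pt i := by
  have h : ∀ x : Fin 3 → ZMod 2, x 0 + x 1 + x 2 = 0 → x ≠ 0 →
      ∃ i, ∀ m, x m = if m = i then 0 else 1 := by decide
  have h1 : x.1 0 + x.1 1 + x.1 2 = 0 := by
    have := mem_VV.mp x.2
    rwa [Fin.sum_univ_three] at this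
  obtain ⟨i, hi⟩ := h x.1 h1 fun h0 => hx (Subtype.ext h0)
  exact ⟨i, Subtype.ext (funext hi)⟩

section

variable {T : Finset ℕ} {hg : 1 ≤ 1} (a : Fin 3 → ℤ)

/-- the operator in the three components -/
theorem tf_eq (φ : Option T → ZMod 2) (x : Fin 3 → ZMod 2) {i j l : Fin 3} (hij : i ≠ j)
    (hli : l ≠ i) (hlj : l ≠ j) :
    ∑ m ∈ univ.erase i, pr φ (a i - a m) * (x i + x m) + φ none * x i =
      pr φ (a i - a j) * (x i + x j) + pr φ (a i - a l) * (x i + x l) + φ none * x i := by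
  have h1 : ∑ m ∈ univ.erase i, pr φ (a i - a m) * (x i + x m) =
      ∑ m, pr φ (a i - a m) * (x i + x m) := by
    rw [← Finset.add_sum_erase univ (fun m => pr φ (a i - a m) * (x i + x m)) (mem_univ i),
      add_self2' (x i), mul_zero, zero_add]
  rw [h1, sum3 hij hli hlj (fun m => pr φ (a i - a m) * (x i + x m)), add_self2' (x i), mul_zero,
    zero_add]

end

/-- the components of `TT φ (Pt i)` -/
theorem TT_Pt {T : Finset ℕ} (hg : 1 ≤ 1) (a : Fin (2 * 1 + 1) → ℤ) (inj : Function.Injective a)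
    (supp : ∀ i j, i ≠ j → ∀ p : ℕ, p.Prime → (p : ℤ) ∣ a i - a j → p ∈ T)
    (φ : Option T → ZMod 2) {i j l : Fin 3} (hij : i ≠ j) (hli : l ≠ i) (hlj : l ≠ j) :
    (Cr.TT (⟨1, hg, a, inj, supp⟩ : Cr T) φ (Pt i) : VV 3) =
      pr φ (a i - a j) • Pt l + pr φ (a i - a l) • Pt j := by
  have hneg : ∀ m m' : Fin 3, m ≠ m' → pr φ (a m - a m') + φ none = pr φ (a m' - a m) := by
    intro m m' h
    have h1 := pr_neg (T := T) φ (z := a m - a m') (sub_ne_zero.2 fun e => h (inj e))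
    rw [← h1]
    congr 1
    ring
  have hmem : ∀ m : Fin 3, m = i ∨ m = j ∨ m = l := by
    revert i j l
    decide
  refine Subtype.ext (funext fun (m : Fin 3) => ?_)
  have hR : ((pr φ (a i - a j) • Pt l + pr φ (a i - a l) • Pt j : VV 3)).1 m =
      pr φ (a i - a j) * (Pt l).1 m + pr φ (a i - a l) * (Pt j).1 m := rfl
  refine Eq.trans ?_ hR.symm
  rcases hmem m with rfl | rfl | rfl
  · refine (tf_eq a φ (Pt m).1 hij hli hlj).trans ?_
    rw [Pt_self, Pt_ne hij.symm, Pt_ne hli, Pt_ne hli.symm, Pt_ne hij]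
    ring
  · refine (tf_eq a φ (Pt i).1 (i := m) (j := i) (l := l) hij.symm hlj hli).trans ?_
    rw [Pt_self, Pt_self, Pt_ne hij.symm, Pt_ne hli, Pt_ne hlj.symm, add_self2' 1, mul_zero,
      add_zero, add_zero, mul_one, mul_one, mul_one, mul_zero, add_zero]
    exact hneg m i hij.symm
  · refine (tf_eq a φ (Pt i).1 (i := m) (j := i) (l := j) hli hlj.symm hij.symm).trans ?_
    rw [Pt_self, Pt_self, Pt_ne hli, Pt_ne hij.symm, Pt_ne hlj, add_self2' 1, mul_zero, add_zero,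
      add_zero, mul_one, mul_one, mul_one, mul_zero, zero_add]
    exact hneg m i hli

/-- **JQ-ISO1.** -/
theorem t_ISO1 : S_ISO1 := by
  rintro T ⟨g, hg, a, inj, supp⟩ ⟨g', hg', a', inj', supp'⟩ h1 h1' ⟨f, hf⟩
  change g = 1 at h1
  change g' = 1 at h1'
  subst h1 h1'
  change VV 3 ≃ₗ[ZMod 2] VV 3 at f
  change ∀ (φ : Option T → ZMod 2) (x : VV 3), f (Cr.TT (⟨1, hg, a, inj, supp⟩ : Cr T) φ x) =
    Cr.TT (⟨1, hg', a', inj', supp'⟩ : Cr T) φ (f x) at hf
  have hex : ∀ i : Fin 3, ∃ s : Fin 3, f (Pt i) = Pt s := fun i =>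
    exists_Pt _ fun h0 => Pt_ne_zero i (f.map_eq_zero_iff.mp h0)
  choose σ hσ using hex
  have hinj : Function.Injective σ := by
    intro i j hij
    apply Pt_inj
    apply f.injective
    rw [hσ, hσ, hij]
  refine ⟨Equiv.ofBijective σ (Finite.injective_iff_bijective.mp hinj), ?_⟩
  change ∀ i j : Fin 3, i ≠ j → (ct (a i - a j) : Option T → ZMod 2) = ct (a' (σ i) - a' (σ j))
  intro i j hij
  obtain ⟨l, hli, hlj⟩ := third i j hij
  have hpr : ∀ φ : Option T → ZMod 2, pr φ (a i - a j) = pr φ (a' (σ i) - a' (σ j)) := by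
    intro φ
    have h2 := hf φ (Pt i)
    rw [TT_Pt hg a inj supp φ hij hli hlj, map_add, map_smul, map_smul, hσ, hσ, hσ,
      TT_Pt hg' a' inj' supp' φ (fun h => hij (hinj h)) (fun h => hli (hinj h))
        (fun h => hlj (hinj h))] at h2
    have h3 := congrFun (congrArg Subtype.val h2) (σ j)
    change pr φ (a i - a j) * (Pt (σ l)).1 (σ j) + pr φ (a i - a l) * (Pt (σ j)).1 (σ j) =
      pr φ (a' (σ i) - a' (σ j)) * (Pt (σ l)).1 (σ j) +
        pr φ (a' (σ i) - a' (σ l)) * (Pt (σ j)).1 (σ j) at h3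
    rw [Pt_self, Pt_ne (fun h => hlj (hinj h).symm), mul_one, mul_one, mul_zero, mul_zero,
      add_zero, add_zero] at h3
    exact h3
  funext o
  have h4 := hpr (Pi.single o 1)
  unfold pr at h4
  have h5 : ∀ z : ℤ, ∑ o', (Pi.single o 1 : Option T → ZMod 2) o' * ct z o' = ct z o := by
    intro z
    rw [Finset.sum_eq_single o]
    · rw [Pi.single_eq_same, one_mul]
    · intro b _ hb
      rw [Pi.single_eq_of_ne hb, zero_mul]
    · intro h
      exact absurd (mem_univ o) h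
  rw [h5, h5] at h4
  exact h4

end Pool.Agent.Q153.JQ
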